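import Pool.Agent.SGY.Stmts
import Pool.Agent.Helper56_SGP.CTR
import Pool.Agent.Helper81_SGP.Cone

/-!
# SGY, module DE1: the contraction of the cluster into `c`
-/

set_option autoImplicit false

noncomputable section

namespace Pool.Agent.SGY.H87

open Pool.Agent.SGE Pool.Agent.SGP Pool.Agent.SGY

theorem con_drop {V : Type} {M B : List V} {x y : V} (h : Con (M ++ B) x y) (hx : x ∉ M) :
    Con B x y := by
  obtain ⟨P, R, hPR⟩ := h
  rcases List.append_eq_append_iff.1 hPR with ⟨l, _, h2⟩ | ⟨l, h1, h2⟩
  · exact ⟨l, R, h2⟩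
  · cases l with
    | nil => exact ⟨[], R, by simpa using h2.symm⟩
    | cons t l =>
      simp only [List.cons_append, List.cons.injEq] at h2
      exfalso
      apply hx
      rw [h1, h2.1]
      simp

theorem de1 : De1Stmt := by
  intro V _ a b c s w M Q mid U E F H
  have hZ : ∀ x ∈ a :: (mid ++ w :: Q), x ∉ U ∧ x ≠ s ∧ x ≠ c ∧ Rel E x := by
    intro x hx
    obtain ⟨y, hy⟩ := H56.contour_nb H.nt4 hx
    exact ⟨hy.1.2.1, hy.2.1, hy.1.1.2.1, y, hy.1.1.1⟩
  have hsU : s ∉ U := H.uo s (by simp)
  have hcZ : c ∉ a :: (mid ++ w :: Q) := fun h => (hZ c h).2.2.1 rfl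
  have N₁ := H81.con (c := c) H.nt4 (fun x hx => hx.1.1.2.1 rfl) hcZ
  refine ⟨_, _, N₁, ?_, ?_⟩
  · ext x
    constructor
    · rintro ⟨hxa, hxb, hxc, y, hxy⟩
      rcases hxy with h | ⟨h, _⟩ | ⟨_, h⟩
      · refine ⟨⟨hxa, hxb, hxc, y, h.1.1.1⟩, ?_⟩
        rintro (h1 | h1)
        · exact h.2.1 h1
        · exact h.1.2.1 h1
      · exact absurd h hxc
      · obtain ⟨h1, h2, _, h4⟩ := hZ x h
        refine ⟨⟨hxa, hxb, hxc, h4⟩, ?_⟩
        rintro (h5 | h5)
        · exact h2 h5
        · exact h1 h5
    · rintro ⟨⟨hxa, hxb, hxc, y, hxy⟩, hxK⟩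
      have hxs : x ≠ s := fun h => hxK (Or.inl h)
      have hxU : x ∉ U := fun h => hxK (Or.inr h)
      refine ⟨hxa, hxb, hxc, ?_⟩
      by_cases hyc : y = c
      · subst hyc
        have h1 := (H.nc x).1 (H.nt.sym _ _ hxy)
        have h2 : x ∉ M := fun h => hxU (H.uM x h)
        refine ⟨y, Or.inr (Or.inr ⟨rfl, ?_⟩)⟩
        simp only [List.mem_cons, List.mem_append] at h1 ⊢
        tauto
      · by_cases hyU : y ∈ U
        · rcases H.ucl y hyU x (H.nt.sym _ _ hxy) with h | h | h | h
          · exact absurd h hxU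
          · exact absurd h hxs
          · refine ⟨c, Or.inr (Or.inr ⟨rfl, ?_⟩)⟩
            rw [h]
            simp
          · exact absurd h hxc
        · by_cases hys : y = s
          · subst hys
            have h1 := (H.ns x).1 ⟨⟨H.nt.sym _ _ hxy, H.sc, hxc⟩, hsU, hxU⟩
            refine ⟨c, Or.inr (Or.inr ⟨rfl, ?_⟩)⟩
            simp only [List.mem_cons, List.mem_append, List.not_mem_nil, or_false] at h1 ⊢
            tauto
          · exact ⟨y, Or.inl ⟨⟨⟨hxy, hxc, hyc⟩, hxU, hyU⟩, hxs, hys⟩⟩
  · have key : ∀ x y z, F x y z → x ∉ insert s U ∪ {c} → y ∉ insert s U ∪ {c} →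
        z ∈ insert s U ∪ {c} → Con (a :: (mid ++ w :: Q)) x y := by
      intro x y z hF hx hy hz
      have hxs : x ≠ s := fun h => hx (Or.inl (Or.inl h))
      have hys : y ≠ s := fun h => hy (Or.inl (Or.inl h))
      have hxU : x ∉ U := fun h => hx (Or.inl (Or.inr h))
      have hyU : y ∉ U := fun h => hy (Or.inl (Or.inr h))
      have hxc : x ≠ c := fun h => hx (Or.inr h)
      have hyc : y ≠ c := fun h => hy (Or.inr h)
      rcases hz with (hz | hz) | hz
      · subst hz
        have h1 := H.fs x y ⟨⟨hF, hxc, hyc, H.sc⟩, hxU, hyU, hsU⟩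
        have h2 := H56.con_left (B := Q) h1
        simpa using h2
      · exfalso
        have h1 : E z x := H.nt.fe _ _ _ (H.nt.rot _ _ _ (H.nt.rot _ _ _ hF))
        have h2 : E z y := H.nt.sym _ _ (H.nt.fe _ _ _ (H.nt.rot _ _ _ hF))
        have h3 : x = w := by
          rcases H.ucl z hz x h1 with h | h | h | h
          · exact absurd h hxU
          · exact absurd h hxs
          · exact h
          · exact absurd h hxc
        have h4 : y = w := by
          rcases H.ucl z hz y h2 with h | h | h | h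
          · exact absurd h hyU
          · exact absurd h hys
          · exact h
          · exact absurd h hyc
        have h5 := H.nt.fe _ _ _ hF
        rw [h3, h4] at h5
        exact H.nt.irr _ h5
      · have hz' : z = c := hz
        subst hz'
        have h1 : Con ([a] ++ s :: (M ++ w :: Q)) x y := H.fc x y hF
        rcases H56.con_split h1 hxs hys with h2 | h2
        · have h3 := H56.con_left (B := mid ++ w :: Q) h2
          simpa using h3
        · have h3 := con_drop h2 (fun h => hxU (H.uM x h))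
          have h4 := H56.con_right (A := a :: mid) h3
          simpa using h4
    have th_in : ∀ x, x ∈ insert s U ∪ {c} → th1 c (insert s U) x = c := by
      intro x hx
      unfold th1
      split_ifs with h
      · rfl
      · rcases hx with hx | hx
        · exact absurd hx h
        · exact hx
    have th_out : ∀ x, x ∉ insert s U ∪ {c} → th1 c (insert s U) x = x := by
      intro x hx
      unfold th1
      rw [if_neg fun h => hx (Or.inl h)]
    intro x y z hF hT
    by_cases hx : x ∈ insert s U ∪ {c}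
    · have hy : y ∉ insert s U ∪ {c} := fun h => hT (Or.inl ⟨hx, h⟩)
      have hz : z ∉ insert s U ∪ {c} := fun h => hT (Or.inr (Or.inr ⟨h, hx⟩))
      rw [th_in x hx, th_out y hy, th_out z hz]
      exact Or.inr (Or.inr (Or.inl ⟨key y z x (H.nt.rot _ _ _ hF) hy hz hx, rfl⟩))
    · by_cases hy : y ∈ insert s U ∪ {c}
      · have hz : z ∉ insert s U ∪ {c} := fun h => hT (Or.inr (Or.inl ⟨hy, h⟩))
        rw [th_out x hx, th_in y hy, th_out z hz]
        exact Or.inr (Or.inr (Or.inr
          ⟨key z x y (H.nt.rot _ _ _ (H.nt.rot _ _ _ hF)) hz hx hy, rfl⟩))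
      · by_cases hz : z ∈ insert s U ∪ {c}
        · rw [th_out x hx, th_out y hy, th_in z hz]
          exact Or.inr (Or.inl ⟨key x y z hF hx hy hz, rfl⟩)
        · rw [th_out x hx, th_out y hy, th_out z hz]
          refine Or.inl ⟨⟨⟨hF, ?_, ?_, ?_⟩, ?_, ?_, ?_⟩, ?_, ?_, ?_⟩
          · exact fun h => hx (Or.inr h)
          · exact fun h => hy (Or.inr h)
          · exact fun h => hz (Or.inr h)
          · exact fun h => hx (Or.inl (Or.inr h))
          · exact fun h => hy (Or.inl (Or.inr h))
          · exact fun h => hz (Or.inl (Or.inr h))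
          · exact fun h => hx (Or.inl (Or.inl h))
          · exact fun h => hy (Or.inl (Or.inl h))
          · exact fun h => hz (Or.inl (Or.inl h))

end Pool.Agent.SGY.H87
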